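import Pool.Agent.UL7.Stmts
import Pool.Agent.Helper27_UL5.HMX

/-!
# Row VRP of squad UL7 (MP_c7c9bf_co): the variation of a linear functional on half of the boundary
-/

set_option autoImplicit false

namespace Pool.Agent.UL7.H2

open MeasureTheory Set Pool.Agent.UL3 Pool.Agent.UL4 Pool.Agent.UL5

/-- the variation of a function which is antiperiodic and unimodal -/
theorem tel {g : ℝ → ℝ} {φ₀ : ℝ} (h0 : 0 ≤ φ₀) (h1 : φ₀ ≤ Real.pi)
    (hanti : ∀ φ, g (φ + Real.pi) = -g φ)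
    (hmon : ∀ φ ψ, φ₀ ≤ φ → φ ≤ ψ → ψ ≤ φ₀ + Real.pi → g ψ ≤ g φ) {N : ℕ} (hN : 0 < N) :
    ∑ j ∈ Finset.range N, |g (Real.pi * ((j : ℝ) + 1) / N) - g (Real.pi * (j : ℝ) / N)| ≤
      2 * g φ₀ := by
  have hpi := Real.pi_pos
  have hup : ∀ a b, 0 ≤ a → a ≤ b → b ≤ φ₀ → g a ≤ g b := by
    intro a b ha hab hb
    have h2 := hmon (a + Real.pi) (b + Real.pi) (by linarith) (by linarith) (by linarith)
    rw [hanti, hanti] at h2
    linarith
  obtain ⟨G, hG⟩ : ∃ G : ℝ → ℝ, G = fun φ => if φ ≤ φ₀ then g φ else 2 * g φ₀ - g φ := ⟨_, rfl⟩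
  have hstep : ∀ a b, 0 ≤ a → a ≤ b → b ≤ Real.pi → |g b - g a| ≤ G b - G a := by
    intro a b ha hab hb
    rw [hG]
    show |g b - g a| ≤ (if b ≤ φ₀ then g b else 2 * g φ₀ - g b) -
      (if a ≤ φ₀ then g a else 2 * g φ₀ - g a)
    rcases le_or_gt b φ₀ with h2 | h2
    · rw [if_pos h2, if_pos (hab.trans h2), abs_of_nonneg (sub_nonneg.2 (hup a b ha hab h2))]
    · rw [if_neg (not_le.2 h2)]
      rcases le_or_gt a φ₀ with h3 | h3
      · rw [if_pos h3]
        have h4 := hup a φ₀ ha h3 le_rfl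
        have h5 := hmon φ₀ b le_rfl h2.le (by linarith)
        rw [abs_le]
        constructor <;> linarith
      · rw [if_neg (not_le.2 h3)]
        have h5 := hmon a b h3.le hab (by linarith)
        rw [abs_of_nonpos (by linarith)]
        linarith
  have hNr : (0 : ℝ) < N := by exact_mod_cast hN
  have hx : ∀ j : ℕ, 0 ≤ Real.pi * (j : ℝ) / N := fun j => by positivity
  have h2 : ∑ j ∈ Finset.range N,
      |g (Real.pi * ((j : ℝ) + 1) / N) - g (Real.pi * (j : ℝ) / N)| ≤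
      ∑ j ∈ Finset.range N, (G (Real.pi * (((j + 1 : ℕ)) : ℝ) / N) -
        G (Real.pi * (j : ℝ) / N)) := by
    refine Finset.sum_le_sum fun j hj => ?_
    have hj' : j < N := Finset.mem_range.1 hj
    have hj2 : ((j : ℝ) + 1) ≤ N := by exact_mod_cast hj'
    push_cast
    refine hstep _ _ (hx j) ?_ ?_
    · exact div_le_div_of_nonneg_right (mul_le_mul_of_nonneg_left (by linarith) hpi.le) hNr.le
    · rw [div_le_iff₀ hNr]
      exact mul_le_mul_of_nonneg_left hj2 hpi.le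
  have h3 := Finset.sum_range_sub (fun j : ℕ => G (Real.pi * (j : ℝ) / N)) N
  have h4 : G (Real.pi * (N : ℝ) / N) = 2 * g φ₀ - g Real.pi := by
    rw [mul_div_assoc, div_self hNr.ne', mul_one, hG]
    show (if Real.pi ≤ φ₀ then g Real.pi else 2 * g φ₀ - g Real.pi) = _
    rcases le_or_gt Real.pi φ₀ with h5 | h5
    · rw [if_pos h5, le_antisymm h1 h5]
      ring
    · rw [if_neg (not_le.2 h5)]
  have h5 : G (Real.pi * ((0 : ℕ) : ℝ) / N) = g 0 := by
    rw [Nat.cast_zero, mul_zero, zero_div, hG]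
    exact if_pos h0
  have h6 : g Real.pi = -g 0 := by
    have := hanti 0
    rwa [zero_add] at this
  refine h2.trans ?_
  rw [h3, h4, h5, h6]
  linarith

theorem cr_neg' (u x : ℝ × ℝ) : cr u (-x) = -cr u x := by
  unfold cr
  simp only [Prod.fst_neg, Prod.snd_neg]
  ring

theorem neg_cr' (u x : ℝ × ℝ) : cr (-u) x = -cr u x := by
  unfold cr
  simp only [Prod.fst_neg, Prod.snd_neg]
  ring

theorem cr_cont (u : ℝ × ℝ) : Continuous (cr u) := by
  unfold cr
  fun_prop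

/-- **VRP** -/
theorem vrp (mnp : MnpStmt) : VrpStmt := by
  intro M P hM hP u N
  obtain ⟨hle, -, -, -, -⟩ := Pool.Agent.UL5.H27.hmx M hM
  rcases Nat.eq_zero_or_pos N with hN | hN
  · subst hN
    rw [Finset.range_zero, Finset.sum_empty]
    have h1 := (abs_nonneg _).trans (hle u 0 (interior_subset hM.zero_mem))
    linarith
  have hf : Continuous fun φ => |cr u (P φ)| := ((cr_cont u).comp hP.cont).abs
  have hanti : ∀ v : ℝ × ℝ, ∀ φ, cr v (P (φ + Real.pi)) = -cr v (P φ) := by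
    intro v φ
    rw [hP.anti, cr_neg']
  obtain ⟨φ₀, hφ₀, hmax⟩ := isCompact_Icc.exists_isMaxOn
    (Set.nonempty_Icc.2 Real.pi_pos.le) hf.continuousOn
  have hper : Function.Periodic (fun φ => |cr u (P φ)|) Real.pi := by
    intro φ
    show |cr u (P (φ + Real.pi))| = |cr u (P φ)|
    rw [hanti, abs_neg]
  have hall : ∀ φ, |cr u (P φ)| ≤ |cr u (P φ₀)| := by
    intro φ
    obtain ⟨ψ, hψ, he⟩ := hper.exists_mem_Ico₀ Real.pi_pos φ
    have he' : |cr u (P φ)| = |cr u (P ψ)| := he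
    rw [he']
    exact hmax ⟨hψ.1, hψ.2.le⟩
  have hm := hle u (P φ₀) (hP.mem φ₀)
  -- choose the sign
  have key : ∀ v : ℝ × ℝ, (∀ φ, |cr v (P φ)| = |cr u (P φ)|) → 0 ≤ cr v (P φ₀) →
      ∑ j ∈ Finset.range N, |cr v (P (Real.pi * ((j : ℝ) + 1) / N)) -
        cr v (P (Real.pi * (j : ℝ) / N))| ≤ 2 * Hm M u := by
    intro v hv h0
    have h1 : ∀ φ, cr v (P φ) ≤ cr v (P φ₀) := by
      intro φ
      have h2 := hall φ
      rw [← hv φ, ← hv φ₀, abs_of_nonneg h0] at h2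
      exact (le_abs_self _).trans h2
    have h3 := tel (g := fun φ => cr v (P φ)) hφ₀.1 hφ₀.2 (hanti v)
      (mnp M P hM hP v φ₀ h1) hN
    have h4 : cr v (P φ₀) ≤ Hm M u := by
      rw [← abs_of_nonneg h0, hv φ₀]
      exact hm
    exact h3.trans (by linarith)
  rcases le_total 0 (cr u (P φ₀)) with h0 | h0
  · exact key u (fun φ => rfl) h0
  · have h1 := key (-u) (fun φ => by rw [neg_cr', abs_neg]) (by rw [neg_cr']; linarith)
    refine le_trans (le_of_eq ?_) h1
    refine Finset.sum_congr rfl fun j _ => ?_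
    rw [neg_cr', neg_cr', ← abs_neg]
    congr 1
    ring

end Pool.Agent.UL7.H2
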